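import Pool.Agent.L5helper72.BD.Defs

set_option autoImplicit false

namespace Pool.Agent.L5helper75.BD

open Finset Filter Topology
open Pool.Agent.L5helper72.BD

lemma ncard_eq (G : ℕ → Prop) [DecidablePred G] (N : ℕ) :
    Set.ncard {n | n < N ∧ G n} = Nat.count G N := by
  rw [Nat.count_eq_card_filter_range, ← Set.ncard_coe_finset]
  congr 1
  ext n
  simp

lemma count_mul (G : ℕ → Prop) [DecidablePred G] (K : ℕ) (hG : ∀ n, G (n + K) ↔ G n) (L : ℕ) :
    Nat.count G (L * K) = L * Nat.count G K := by
  have hG' : ∀ L n, G (L * K + n) ↔ G n := by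
    intro L
    induction L with
    | zero => intro n; simp
    | succ L ih =>
      intro n
      have : (L + 1) * K + n = (L * K + n) + K := by ring
      rw [this, hG, ih]
  induction L with
  | zero => simp
  | succ L ih =>
    have h1 : (L + 1) * K = L * K + K := by ring
    rw [h1, Nat.count_add, ih]
    have h2 : Nat.count (fun k => G (L * K + k)) K = Nat.count G K := by
      simp only [hG']
    rw [h2]; ring

lemma count_div (D : ℕ → Prop) [DecidablePred D] (P : ℕ) (hP : 1 ≤ P) (Q : ℕ) :
    Nat.count (fun n => D (n / P)) (P * Q) = P * Nat.count D Q := by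
  induction Q with
  | zero => simp
  | succ q ih =>
    rw [Nat.mul_succ, Nat.count_add, ih, Nat.count_succ, Nat.mul_add]
    congr 1
    have h1 : ∀ k ∈ range P, (P * q + k) / P = q := by
      intro k hk
      rw [Nat.mul_add_div (by omega), Nat.div_eq_of_lt (Finset.mem_range.1 hk)]
      simp
    rw [Nat.count_eq_card_filter_range]
    by_cases hD : D q
    · have h2 : (range P).filter (fun k => D ((P * q + k) / P)) = range P := by
        refine Finset.filter_true_of_mem fun k hk => ?_
        rw [h1 k hk]; exact hD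
      rw [h2]; simp [hD]
    · have h2 : (range P).filter (fun k => D ((P * q + k) / P)) = ∅ := by
        refine Finset.filter_false_of_mem fun k hk => ?_
        rw [h1 k hk]; exact hD
      rw [h2]; simp [hD]

theorem PER_holds : St_PER := by
  classical
  intro P Q δ E D hP hQ hδ hE hD hQD
  have hK : 1 ≤ P * Q := Nat.one_le_iff_ne_zero.2 (by positivity)
  filter_upwards [eventually_ge_atTop (P * Q)] with N hN
  set G : ℕ → Prop := fun n => D (n / P) with hG
  have hGp : ∀ n, G (n + P * Q) ↔ G n := by
    intro n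
    simp only [hG]
    rw [Nat.add_mul_div_left _ _ (by omega), hD]
  have h1 : Set.ncard {n | n < N ∧ E n} ≤ Nat.count G N := by
    rw [← ncard_eq]
    refine Set.ncard_le_ncard ?_ ?_
    · rintro n ⟨hn, hn'⟩
      exact ⟨hn, hE n hn'⟩
    · exact (Set.finite_lt_nat N).subset fun n hn => hn.1
  have h2 : Nat.count G N ≤ Nat.count G ((N / (P * Q) + 1) * (P * Q)) := by
    refine Nat.count_monotone G ?_
    have := Nat.lt_div_mul_add (a := N) (b := P * Q) (by omega)
    nlinarith
  rw [count_mul G (P * Q) hGp, count_div D P hP Q, ← ncard_eq D Q] at h2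
  have h3 : (Set.ncard {n | n < N ∧ E n} : ℝ) ≤
      ((N / (P * Q) : ℕ) + 1 : ℝ) * ((P : ℝ) * (Set.ncard {t | t < Q ∧ D t} : ℝ)) := by
    exact_mod_cast h1.trans h2
  have hKr : (0 : ℝ) < (P : ℝ) * Q := by
    have : (0 : ℝ) < ((P * Q : ℕ) : ℝ) := by exact_mod_cast hK
    simpa using this
  have h4 : ((N / (P * Q) : ℕ) : ℝ) ≤ N / ((P : ℝ) * Q) := by
    have := @Nat.cast_div_le ℝ _ _ _ N (P * Q)
    simpa using this
  have h5 : (1 : ℝ) ≤ N / ((P : ℝ) * Q) := by
    rw [one_le_div hKr]
    exact_mod_cast hN
  calc (Set.ncard {n | n < N ∧ E n} : ℝ) ≤ _ := h3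
    _ ≤ (2 * (N / ((P : ℝ) * Q))) * ((P : ℝ) * (δ * Q)) := by
        refine mul_le_mul (by linarith) (mul_le_mul_of_nonneg_left hQD (by positivity))
          (by positivity) (by positivity)
    _ = 2 * δ * N := by
        field_simp

end Pool.Agent.L5helper75.BD
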